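import Mathlib

/-! Machine-generated linear-algebra certificates over `ℚ(√5, √3)` for the nine points. -/

namespace Pool.Agent.P.MP_048963_co

set_option linter.unusedVariables false

variable {s t : ℝ}

theorem ne_B0_R0 (hs : s ^ 2 = 5) (ht : t ^ 2 = 3) (h1 : (0 : ℝ) = -1)
    (h2 : (0 : ℝ) = s * t) : False := by
  have : (1 : ℝ) = 0 := by
    linear_combination ((1 : ℝ)) * h1
  exact one_ne_zero this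

theorem ne_B0_R1 (hs : s ^ 2 = 5) (ht : t ^ 2 = 3) (h1 : (0 : ℝ) = 2)
    (h2 : (0 : ℝ) = 2 * s * t + 4 * t) : False := by
  have : (1 : ℝ) = 0 := by
    linear_combination ((-1/2 : ℝ)) * h1
  exact one_ne_zero this

theorem ne_B0_R2 (hs : s ^ 2 = 5) (ht : t ^ 2 = 3) (h1 : (0 : ℝ) = 2)
    (h2 : (0 : ℝ) = 2 * s * t - 4 * t) : False := by
  have : (1 : ℝ) = 0 := by
    linear_combination ((-1/2 : ℝ)) * h1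
  exact one_ne_zero this

theorem ne_B0_R3 (hs : s ^ 2 = 5) (ht : t ^ 2 = 3) (h1 : (0 : ℝ) = -1 - 3 * s)
    (h2 : (0 : ℝ) = s * t - t) : False := by
  have : (1 : ℝ) = 0 := by
    linear_combination ((-1/44 : ℝ) + (3/44 : ℝ)*s) * h1 +
      ((-9/44 : ℝ)) * hs
  exact one_ne_zero this

theorem ne_B1_R0 (hs : s ^ 2 = 5) (ht : t ^ 2 = 3) (h1 : (8 : ℝ) = -1)
    (h2 : (0 : ℝ) = s * t) : False := by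
  have : (1 : ℝ) = 0 := by
    linear_combination ((1/9 : ℝ)) * h1
  exact one_ne_zero this

theorem ne_B1_R1 (hs : s ^ 2 = 5) (ht : t ^ 2 = 3) (h1 : (8 : ℝ) = 2)
    (h2 : (0 : ℝ) = 2 * s * t + 4 * t) : False := by
  have : (1 : ℝ) = 0 := by
    linear_combination ((1/6 : ℝ)) * h1
  exact one_ne_zero this

theorem ne_B1_R2 (hs : s ^ 2 = 5) (ht : t ^ 2 = 3) (h1 : (8 : ℝ) = 2)
    (h2 : (0 : ℝ) = 2 * s * t - 4 * t) : False := by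
  have : (1 : ℝ) = 0 := by
    linear_combination ((1/6 : ℝ)) * h1
  exact one_ne_zero this

theorem ne_B1_R3 (hs : s ^ 2 = 5) (ht : t ^ 2 = 3) (h1 : (8 : ℝ) = -1 - 3 * s)
    (h2 : (0 : ℝ) = s * t - t) : False := by
  have : (1 : ℝ) = 0 := by
    linear_combination ((1/4 : ℝ) + (-1/12 : ℝ)*s) * h1 +
      ((1/4 : ℝ)) * hs
  exact one_ne_zero this

theorem ne_B2_R0 (hs : s ^ 2 = 5) (ht : t ^ 2 = 3) (h1 : (2 : ℝ) = -1)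
    (h2 : (2 * s * t : ℝ) = s * t) : False := by
  have : (1 : ℝ) = 0 := by
    linear_combination ((1/3 : ℝ)) * h1
  exact one_ne_zero this

theorem ne_B2_R1 (hs : s ^ 2 = 5) (ht : t ^ 2 = 3) (h1 : (2 : ℝ) = 2)
    (h2 : (2 * s * t : ℝ) = 2 * s * t + 4 * t) : False := by
  have : (1 : ℝ) = 0 := by
    linear_combination ((-1/12 : ℝ)*t) * h2 +
      ((-1/3 : ℝ)) * ht
  exact one_ne_zero this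

theorem ne_B2_R2 (hs : s ^ 2 = 5) (ht : t ^ 2 = 3) (h1 : (2 : ℝ) = 2)
    (h2 : (2 * s * t : ℝ) = 2 * s * t - 4 * t) : False := by
  have : (1 : ℝ) = 0 := by
    linear_combination ((1/12 : ℝ)*t) * h2 +
      ((-1/3 : ℝ)) * ht
  exact one_ne_zero this

theorem ne_B2_R3 (hs : s ^ 2 = 5) (ht : t ^ 2 = 3) (h1 : (2 : ℝ) = -1 - 3 * s)
    (h2 : (2 * s * t : ℝ) = s * t - t) : False := by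
  have : (1 : ℝ) = 0 := by
    linear_combination ((-1/12 : ℝ) + (1/12 : ℝ)*s) * h1 +
      ((-1/4 : ℝ)) * hs
  exact one_ne_zero this

theorem ne_B3_R0 (hs : s ^ 2 = 5) (ht : t ^ 2 = 3) (h1 : (-4 : ℝ) = -1)
    (h2 : (4 * t : ℝ) = s * t) : False := by
  have : (1 : ℝ) = 0 := by
    linear_combination ((-1/3 : ℝ)) * h1
  exact one_ne_zero this

theorem ne_B3_R1 (hs : s ^ 2 = 5) (ht : t ^ 2 = 3) (h1 : (-4 : ℝ) = 2)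
    (h2 : (4 * t : ℝ) = 2 * s * t + 4 * t) : False := by
  have : (1 : ℝ) = 0 := by
    linear_combination ((-1/6 : ℝ)) * h1
  exact one_ne_zero this

theorem ne_B3_R2 (hs : s ^ 2 = 5) (ht : t ^ 2 = 3) (h1 : (-4 : ℝ) = 2)
    (h2 : (4 * t : ℝ) = 2 * s * t - 4 * t) : False := by
  have : (1 : ℝ) = 0 := by
    linear_combination ((-1/6 : ℝ)) * h1
  exact one_ne_zero this

theorem ne_B3_R3 (hs : s ^ 2 = 5) (ht : t ^ 2 = 3) (h1 : (-4 : ℝ) = -1 - 3 * s)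
    (h2 : (4 * t : ℝ) = s * t - t) : False := by
  have : (1 : ℝ) = 0 := by
    linear_combination ((1/12 : ℝ) + (1/12 : ℝ)*s) * h1 +
      ((-1/4 : ℝ)) * hs
  exact one_ne_zero this

theorem ne_B4_R0 (hs : s ^ 2 = 5) (ht : t ^ 2 = 3) (h1 : (-4 : ℝ) = -1)
    (h2 : (-4 * t : ℝ) = s * t) : False := by
  have : (1 : ℝ) = 0 := by
    linear_combination ((-1/3 : ℝ)) * h1
  exact one_ne_zero this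

theorem ne_B4_R1 (hs : s ^ 2 = 5) (ht : t ^ 2 = 3) (h1 : (-4 : ℝ) = 2)
    (h2 : (-4 * t : ℝ) = 2 * s * t + 4 * t) : False := by
  have : (1 : ℝ) = 0 := by
    linear_combination ((-1/6 : ℝ)) * h1
  exact one_ne_zero this

theorem ne_B4_R2 (hs : s ^ 2 = 5) (ht : t ^ 2 = 3) (h1 : (-4 : ℝ) = 2)
    (h2 : (-4 * t : ℝ) = 2 * s * t - 4 * t) : False := by
  have : (1 : ℝ) = 0 := by
    linear_combination ((-1/6 : ℝ)) * h1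
  exact one_ne_zero this

theorem ne_B4_R3 (hs : s ^ 2 = 5) (ht : t ^ 2 = 3) (h1 : (-4 : ℝ) = -1 - 3 * s)
    (h2 : (-4 * t : ℝ) = s * t - t) : False := by
  have : (1 : ℝ) = 0 := by
    linear_combination ((1/12 : ℝ) + (1/12 : ℝ)*s) * h1 +
      ((-1/4 : ℝ)) * hs
  exact one_ne_zero this

theorem circ_B0_B1_B2 (hs : s ^ 2 = 5) (ht : t ^ 2 = 3) {c d r : ℝ}
    (h0 : ((0) - c) ^ 2 + ((0) - d) ^ 2 = r ^ 2) 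
    (h1 : ((8) - c) ^ 2 + ((0) - d) ^ 2 = r ^ 2) 
    (h2 : ((2) - c) ^ 2 + ((2 * s * t) - d) ^ 2 = r ^ 2) :
    ((-1) - c) ^ 2 + ((s * t) - d) ^ 2 = r ^ 2 := by
  linear_combination ((3/4 : ℝ)) * h0 +
      ((-1/4 : ℝ)) * h1 +
      ((1/2 : ℝ)) * h2 +
      ((-1 : ℝ)*t^2) * hs +
      ((-5 : ℝ)) * ht

theorem col_B0_B1_B2 (hs : s ^ 2 = 5) (ht : t ^ 2 = 3)
    (h : (((8) - (0)) * ((2 * s * t) - (0)) - ((0) - (0)) * ((2) - (0)) : ℝ) = 0) : False := by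
  have : (1 : ℝ) = 0 := by
    linear_combination ((1/240 : ℝ)*s*t) * h +
      ((-1/15 : ℝ)*t^2) * hs +
      ((-1/3 : ℝ)) * ht
  exact one_ne_zero this

theorem circ_B0_B1_B3 (hs : s ^ 2 = 5) (ht : t ^ 2 = 3) {c d r : ℝ}
    (h0 : ((0) - c) ^ 2 + ((0) - d) ^ 2 = r ^ 2) 
    (h1 : ((8) - c) ^ 2 + ((0) - d) ^ 2 = r ^ 2) 
    (h2 : ((-4) - c) ^ 2 + ((4 * t) - d) ^ 2 = r ^ 2) :
    ((2) - c) ^ 2 + ((2 * s * t + 4 * t) - d) ^ 2 = r ^ 2 := by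
  linear_combination ((-3/4 : ℝ) + (-3/4 : ℝ)*s) * h0 +
      ((3/4 : ℝ) + (1/4 : ℝ)*s) * h1 +
      ((1 : ℝ) + (1/2 : ℝ)*s) * h2 +
      ((4 : ℝ)*t^2) * hs +
      ((20 : ℝ) + (8 : ℝ)*s) * ht

theorem col_B0_B1_B3 (hs : s ^ 2 = 5) (ht : t ^ 2 = 3)
    (h : (((8) - (0)) * ((4 * t) - (0)) - ((0) - (0)) * ((-4) - (0)) : ℝ) = 0) : False := by
  have : (1 : ℝ) = 0 := by
    linear_combination ((1/96 : ℝ)*t) * h +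
      ((-1/3 : ℝ)) * ht
  exact one_ne_zero this

theorem circ_B0_B1_B4 (hs : s ^ 2 = 5) (ht : t ^ 2 = 3) {c d r : ℝ}
    (h0 : ((0) - c) ^ 2 + ((0) - d) ^ 2 = r ^ 2) 
    (h1 : ((8) - c) ^ 2 + ((0) - d) ^ 2 = r ^ 2) 
    (h2 : ((-4) - c) ^ 2 + ((-4 * t) - d) ^ 2 = r ^ 2) :
    ((2) - c) ^ 2 + ((2 * s * t - 4 * t) - d) ^ 2 = r ^ 2 := by
  linear_combination ((-3/4 : ℝ) + (3/4 : ℝ)*s) * h0 +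
      ((3/4 : ℝ) + (-1/4 : ℝ)*s) * h1 +
      ((1 : ℝ) + (-1/2 : ℝ)*s) * h2 +
      ((4 : ℝ)*t^2) * hs +
      ((20 : ℝ) + (-8 : ℝ)*s) * ht

theorem col_B0_B1_B4 (hs : s ^ 2 = 5) (ht : t ^ 2 = 3)
    (h : (((8) - (0)) * ((-4 * t) - (0)) - ((0) - (0)) * ((-4) - (0)) : ℝ) = 0) : False := by
  have : (1 : ℝ) = 0 := by
    linear_combination ((-1/96 : ℝ)*t) * h +
      ((-1/3 : ℝ)) * ht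
  exact one_ne_zero this

theorem circ_B0_B2_B3 (hs : s ^ 2 = 5) (ht : t ^ 2 = 3) {c d r : ℝ}
    (h0 : ((0) - c) ^ 2 + ((0) - d) ^ 2 = r ^ 2) 
    (h1 : ((2) - c) ^ 2 + ((2 * s * t) - d) ^ 2 = r ^ 2) 
    (h2 : ((-4) - c) ^ 2 + ((4 * t) - d) ^ 2 = r ^ 2) :
    ((2) - c) ^ 2 + ((2 * s * t - 4 * t) - d) ^ 2 = r ^ 2 := by
  linear_combination ((-3/4 : ℝ) + (3/4 : ℝ)*s) * h0 +
      ((3/2 : ℝ) + (-1/2 : ℝ)*s) * h1 +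
      ((1/4 : ℝ) + (-1/4 : ℝ)*s) * h2 +
      ((-2 : ℝ)*d*t + (2 : ℝ)*s*t^2 + (-2 : ℝ)*t^2) * hs +
      ((2 : ℝ) + (-2 : ℝ)*s) * ht

theorem col_B0_B2_B3 (hs : s ^ 2 = 5) (ht : t ^ 2 = 3)
    (h : (((2) - (0)) * ((4 * t) - (0)) - ((2 * s * t) - (0)) * ((-4) - (0)) : ℝ) = 0) : False := by
  have : (1 : ℝ) = 0 := by
    linear_combination ((1/96 : ℝ)*s*t + (-1/96 : ℝ)*t) * h +
      ((-1/12 : ℝ)*t^2) * hs +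
      ((-1/3 : ℝ)) * ht
  exact one_ne_zero this

theorem circ_B0_B2_B4 (hs : s ^ 2 = 5) (ht : t ^ 2 = 3) {c d r : ℝ}
    (h0 : ((0) - c) ^ 2 + ((0) - d) ^ 2 = r ^ 2) 
    (h1 : ((2) - c) ^ 2 + ((2 * s * t) - d) ^ 2 = r ^ 2) 
    (h2 : ((-4) - c) ^ 2 + ((-4 * t) - d) ^ 2 = r ^ 2) :
    ((2) - c) ^ 2 + ((2 * s * t + 4 * t) - d) ^ 2 = r ^ 2 := by
  linear_combination ((-3/4 : ℝ) + (-3/4 : ℝ)*s) * h0 +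
      ((3/2 : ℝ) + (1/2 : ℝ)*s) * h1 +
      ((1/4 : ℝ) + (1/4 : ℝ)*s) * h2 +
      ((2 : ℝ)*d*t + (-2 : ℝ)*s*t^2 + (-2 : ℝ)*t^2) * hs +
      ((2 : ℝ) + (2 : ℝ)*s) * ht

theorem col_B0_B2_B4 (hs : s ^ 2 = 5) (ht : t ^ 2 = 3)
    (h : (((2) - (0)) * ((-4 * t) - (0)) - ((2 * s * t) - (0)) * ((-4) - (0)) : ℝ) = 0) : False := by
  have : (1 : ℝ) = 0 := by
    linear_combination ((1/96 : ℝ)*s*t + (1/96 : ℝ)*t) * h +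
      ((-1/12 : ℝ)*t^2) * hs +
      ((-1/3 : ℝ)) * ht
  exact one_ne_zero this

theorem circ_B0_B3_B4 (hs : s ^ 2 = 5) (ht : t ^ 2 = 3) {c d r : ℝ}
    (h0 : ((0) - c) ^ 2 + ((0) - d) ^ 2 = r ^ 2) 
    (h1 : ((-4) - c) ^ 2 + ((4 * t) - d) ^ 2 = r ^ 2) 
    (h2 : ((-4) - c) ^ 2 + ((-4 * t) - d) ^ 2 = r ^ 2) :
    ((-1) - c) ^ 2 + ((s * t) - d) ^ 2 = r ^ 2 := by
  linear_combination ((3/4 : ℝ)) * h0 +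
      ((1/8 : ℝ) + (1/8 : ℝ)*s) * h1 +
      ((1/8 : ℝ) + (-1/8 : ℝ)*s) * h2 +
      ((1 : ℝ)*t^2) * hs +
      ((1 : ℝ)) * ht

theorem col_B0_B3_B4 (hs : s ^ 2 = 5) (ht : t ^ 2 = 3)
    (h : (((-4) - (0)) * ((-4 * t) - (0)) - ((4 * t) - (0)) * ((-4) - (0)) : ℝ) = 0) : False := by
  have : (1 : ℝ) = 0 := by
    linear_combination ((1/96 : ℝ)*t) * h +
      ((-1/3 : ℝ)) * ht
  exact one_ne_zero this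

theorem circ_B1_B2_B3 (hs : s ^ 2 = 5) (ht : t ^ 2 = 3) {c d r : ℝ}
    (h0 : ((8) - c) ^ 2 + ((0) - d) ^ 2 = r ^ 2) 
    (h1 : ((2) - c) ^ 2 + ((2 * s * t) - d) ^ 2 = r ^ 2) 
    (h2 : ((-4) - c) ^ 2 + ((4 * t) - d) ^ 2 = r ^ 2) :
    ((-1 - 3 * s) - c) ^ 2 + ((s * t - t) - d) ^ 2 = r ^ 2 := by
  linear_combination ((1/2 : ℝ)) * h0 +
      ((-1/2 : ℝ) + (-1/2 : ℝ)*s) * h1 +
      ((1 : ℝ) + (1/2 : ℝ)*s) * h2 +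
      ((9 : ℝ) + (-2 : ℝ)*d*t + (2 : ℝ)*s*t^2 + (3 : ℝ)*t^2) * hs

theorem col_B1_B2_B3 (hs : s ^ 2 = 5) (ht : t ^ 2 = 3)
    (h : (((2) - (8)) * ((4 * t) - (0)) - ((2 * s * t) - (0)) * ((-4) - (8)) : ℝ) = 0) : False := by
  have : (1 : ℝ) = 0 := by
    linear_combination ((1/288 : ℝ)*s*t + (1/288 : ℝ)*t) * h +
      ((-1/12 : ℝ)*t^2) * hs +
      ((-1/3 : ℝ)) * ht
  exact one_ne_zero this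

theorem circ_B1_B2_B4 (hs : s ^ 2 = 5) (ht : t ^ 2 = 3) {c d r : ℝ}
    (h0 : ((8) - c) ^ 2 + ((0) - d) ^ 2 = r ^ 2) 
    (h1 : ((2) - c) ^ 2 + ((2 * s * t) - d) ^ 2 = r ^ 2) 
    (h2 : ((-4) - c) ^ 2 + ((-4 * t) - d) ^ 2 = r ^ 2) :
    ((-1 - 3 * s) - c) ^ 2 + ((s * t - t) - d) ^ 2 = r ^ 2 := by
  linear_combination ((-1/4 : ℝ) + (-1/4 : ℝ)*s) * h0 +
      ((1 : ℝ)) * h1 +
      ((1/4 : ℝ) + (1/4 : ℝ)*s) * h2 +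
      ((9 : ℝ) + (-3 : ℝ)*t^2) * hs +
      ((-18 : ℝ) + (-6 : ℝ)*s) * ht

theorem col_B1_B2_B4 (hs : s ^ 2 = 5) (ht : t ^ 2 = 3)
    (h : (((2) - (8)) * ((-4 * t) - (0)) - ((2 * s * t) - (0)) * ((-4) - (8)) : ℝ) = 0) : False := by
  have : (1 : ℝ) = 0 := by
    linear_combination ((1/288 : ℝ)*s*t + (-1/288 : ℝ)*t) * h +
      ((-1/12 : ℝ)*t^2) * hs +
      ((-1/3 : ℝ)) * ht
  exact one_ne_zero this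

theorem circ_B1_B3_B4 (hs : s ^ 2 = 5) (ht : t ^ 2 = 3) {c d r : ℝ}
    (h0 : ((8) - c) ^ 2 + ((0) - d) ^ 2 = r ^ 2) 
    (h1 : ((-4) - c) ^ 2 + ((4 * t) - d) ^ 2 = r ^ 2) 
    (h2 : ((-4) - c) ^ 2 + ((-4 * t) - d) ^ 2 = r ^ 2) :
    ((-1 - 3 * s) - c) ^ 2 + ((s * t - t) - d) ^ 2 = r ^ 2 := by
  linear_combination ((1/4 : ℝ) + (-1/4 : ℝ)*s) * h0 +
      ((1/4 : ℝ) + (1/4 : ℝ)*s) * h1 +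
      ((1/2 : ℝ)) * h2 +
      ((9 : ℝ) + (1 : ℝ)*t^2) * hs +
      ((-6 : ℝ) + (-6 : ℝ)*s) * ht

theorem col_B1_B3_B4 (hs : s ^ 2 = 5) (ht : t ^ 2 = 3)
    (h : (((-4) - (8)) * ((-4 * t) - (0)) - ((4 * t) - (0)) * ((-4) - (8)) : ℝ) = 0) : False := by
  have : (1 : ℝ) = 0 := by
    linear_combination ((1/288 : ℝ)*t) * h +
      ((-1/3 : ℝ)) * ht
  exact one_ne_zero this

theorem circ_B2_B3_B4 (hs : s ^ 2 = 5) (ht : t ^ 2 = 3) {c d r : ℝ}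
    (h0 : ((2) - c) ^ 2 + ((2 * s * t) - d) ^ 2 = r ^ 2) 
    (h1 : ((-4) - c) ^ 2 + ((4 * t) - d) ^ 2 = r ^ 2) 
    (h2 : ((-4) - c) ^ 2 + ((-4 * t) - d) ^ 2 = r ^ 2) :
    ((-1 - 3 * s) - c) ^ 2 + ((s * t - t) - d) ^ 2 = r ^ 2 := by
  linear_combination ((1/2 : ℝ) + (-1/2 : ℝ)*s) * h0 +
      ((3/4 : ℝ) + (1/4 : ℝ)*s) * h1 +
      ((-1/4 : ℝ) + (1/4 : ℝ)*s) * h2 +
      ((9 : ℝ) + (-2 : ℝ)*d*t + (2 : ℝ)*s*t^2 + (-1 : ℝ)*t^2) * hs +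
      ((-12 : ℝ)) * ht

theorem col_B2_B3_B4 (hs : s ^ 2 = 5) (ht : t ^ 2 = 3)
    (h : (((-4) - (2)) * ((-4 * t) - (2 * s * t)) - ((4 * t) - (2 * s * t)) * ((-4) - (2)) : ℝ) = 0) : False := by
  have : (1 : ℝ) = 0 := by
    linear_combination ((1/144 : ℝ)*t) * h +
      ((-1/3 : ℝ)) * ht
  exact one_ne_zero this

theorem circ_R0_R1_R2 (hs : s ^ 2 = 5) (ht : t ^ 2 = 3) {c d r : ℝ}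
    (h0 : ((-1) - c) ^ 2 + ((s * t) - d) ^ 2 = r ^ 2) 
    (h1 : ((2) - c) ^ 2 + ((2 * s * t + 4 * t) - d) ^ 2 = r ^ 2) 
    (h2 : ((2) - c) ^ 2 + ((2 * s * t - 4 * t) - d) ^ 2 = r ^ 2) :
    ((8) - c) ^ 2 + ((0) - d) ^ 2 = r ^ 2 := by
  linear_combination ((-2 : ℝ)) * h0 +
      ((3/2 : ℝ) + (-1/2 : ℝ)*s) * h1 +
      ((3/2 : ℝ) + (1/2 : ℝ)*s) * h2 +
      ((6 : ℝ)*t^2) * hs +
      ((-18 : ℝ)) * ht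

theorem col_R0_R1_R2 (hs : s ^ 2 = 5) (ht : t ^ 2 = 3)
    (h : (((2) - (-1)) * ((2 * s * t - 4 * t) - (s * t)) - ((2 * s * t + 4 * t) - (s * t)) * ((2) - (-1)) : ℝ) = 0) : False := by
  have : (1 : ℝ) = 0 := by
    linear_combination ((-1/72 : ℝ)*t) * h +
      ((-1/3 : ℝ)) * ht
  exact one_ne_zero this

theorem circ_R0_R1_R3 (hs : s ^ 2 = 5) (ht : t ^ 2 = 3) {c d r : ℝ}
    (h0 : ((-1) - c) ^ 2 + ((s * t) - d) ^ 2 = r ^ 2) 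
    (h1 : ((2) - c) ^ 2 + ((2 * s * t + 4 * t) - d) ^ 2 = r ^ 2) 
    (h2 : ((-1 - 3 * s) - c) ^ 2 + ((s * t - t) - d) ^ 2 = r ^ 2) :
    ((2) - c) ^ 2 + ((2 * s * t) - d) ^ 2 = r ^ 2 := by
  linear_combination ((1 : ℝ)) * h0 +
      ((-1/4 : ℝ) + (1/4 : ℝ)*s) * h1 +
      ((1/4 : ℝ) + (-1/4 : ℝ)*s) * h2 +
      ((-3/4 : ℝ) + (3/2 : ℝ)*c + (1/2 : ℝ)*d*t + (9/4 : ℝ)*s + (-3/4 : ℝ)*s*t^2 + (-3/4 : ℝ)*t^2) * hs +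
      ((-3 : ℝ)*s) * ht

theorem col_R0_R1_R3 (hs : s ^ 2 = 5) (ht : t ^ 2 = 3)
    (h : (((2) - (-1)) * ((s * t - t) - (s * t)) - ((2 * s * t + 4 * t) - (s * t)) * ((-1 - 3 * s) - (-1)) : ℝ) = 0) : False := by
  have : (1 : ℝ) = 0 := by
    linear_combination ((1/144 : ℝ)*s*t + (-1/144 : ℝ)*t) * h +
      ((-1/48 : ℝ)*s*t^2 + (-1/16 : ℝ)*t^2) * hs +
      ((-1/3 : ℝ)) * ht
  exact one_ne_zero this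

theorem circ_R0_R2_R3 (hs : s ^ 2 = 5) (ht : t ^ 2 = 3) {c d r : ℝ}
    (h0 : ((-1) - c) ^ 2 + ((s * t) - d) ^ 2 = r ^ 2) 
    (h1 : ((2) - c) ^ 2 + ((2 * s * t - 4 * t) - d) ^ 2 = r ^ 2) 
    (h2 : ((-1 - 3 * s) - c) ^ 2 + ((s * t - t) - d) ^ 2 = r ^ 2) :
    ((-4) - c) ^ 2 + ((-4 * t) - d) ^ 2 = r ^ 2 := by
  linear_combination ((-1 : ℝ) + (-1 : ℝ)*s) * h0 +
      ((3/2 : ℝ) + (1/2 : ℝ)*s) * h1 +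
      ((1/2 : ℝ) + (1/2 : ℝ)*s) * h2 +
      ((-15/2 : ℝ) + (-3 : ℝ)*c + (1 : ℝ)*d*t + (-9/2 : ℝ)*s + (-3/2 : ℝ)*s*t^2 + (7/2 : ℝ)*t^2) * hs +
      ((9 : ℝ) + (9 : ℝ)*s) * ht

theorem col_R0_R2_R3 (hs : s ^ 2 = 5) (ht : t ^ 2 = 3)
    (h : (((2) - (-1)) * ((s * t - t) - (s * t)) - ((2 * s * t - 4 * t) - (s * t)) * ((-1 - 3 * s) - (-1)) : ℝ) = 0) : False := by
  have : (1 : ℝ) = 0 := by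
    linear_combination ((-1/144 : ℝ)*s*t + (-1/144 : ℝ)*t) * h +
      ((1/48 : ℝ)*s*t^2 + (-1/16 : ℝ)*t^2) * hs +
      ((-1/3 : ℝ)) * ht
  exact one_ne_zero this

theorem circ_R1_R2_R3 (hs : s ^ 2 = 5) (ht : t ^ 2 = 3) {c d r : ℝ}
    (h0 : ((2) - c) ^ 2 + ((2 * s * t + 4 * t) - d) ^ 2 = r ^ 2) 
    (h1 : ((2) - c) ^ 2 + ((2 * s * t - 4 * t) - d) ^ 2 = r ^ 2) 
    (h2 : ((-1 - 3 * s) - c) ^ 2 + ((s * t - t) - d) ^ 2 = r ^ 2) :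
    ((0) - c) ^ 2 + ((0) - d) ^ 2 = r ^ 2 := by
  linear_combination ((2/3 : ℝ) + (-1/3 : ℝ)*s) * h0 +
      ((1/2 : ℝ) + (1/6 : ℝ)*s) * h1 +
      ((-1/6 : ℝ) + (1/6 : ℝ)*s) * h2 +
      ((1/2 : ℝ) + (-1 : ℝ)*c + (-1/3 : ℝ)*d*t + (-3/2 : ℝ)*s + (1/2 : ℝ)*s*t^2 + (23/6 : ℝ)*t^2) * hs +
      ((2/3 : ℝ) + (2 : ℝ)*s) * ht

theorem col_R1_R2_R3 (hs : s ^ 2 = 5) (ht : t ^ 2 = 3)
    (h : (((2) - (2)) * ((s * t - t) - (2 * s * t + 4 * t)) - ((2 * s * t - 4 * t) - (2 * s * t + 4 * t)) * ((-1 - 3 * s) - (2)) : ℝ) = 0) : False := by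
  have : (1 : ℝ) = 0 := by
    linear_combination ((-1/288 : ℝ)*s*t + (1/288 : ℝ)*t) * h +
      ((-1/12 : ℝ)*t^2) * hs +
      ((-1/3 : ℝ)) * ht
  exact one_ne_zero this

theorem ncirc_B0_B1_B2_B3 (hs : s ^ 2 = 5) (ht : t ^ 2 = 3) {c d r : ℝ}
    (h0 : ((0) - c) ^ 2 + ((0) - d) ^ 2 = r ^ 2) 
    (h1 : ((8) - c) ^ 2 + ((0) - d) ^ 2 = r ^ 2) 
    (h2 : ((2) - c) ^ 2 + ((2 * s * t) - d) ^ 2 = r ^ 2) 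
    (h3 : ((-4) - c) ^ 2 + ((4 * t) - d) ^ 2 = r ^ 2) : False := by
  have : (1 : ℝ) = 0 := by
    linear_combination ((-1/64 : ℝ)) * h0 +
      ((1/128 : ℝ) + (1/384 : ℝ)*s) * h1 +
      ((-1/192 : ℝ) + (-1/192 : ℝ)*s) * h2 +
      ((5/384 : ℝ) + (1/384 : ℝ)*s) * h3 +
      ((-1/48 : ℝ)*d*t + (1/48 : ℝ)*s*t^2 + (1/48 : ℝ)*t^2) * hs +
      ((-5/48 : ℝ) + (1/16 : ℝ)*s) * ht
  exact one_ne_zero this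

theorem ncirc_R0_R1_R2_R3 (hs : s ^ 2 = 5) (ht : t ^ 2 = 3) {c d r : ℝ}
    (h0 : ((-1) - c) ^ 2 + ((s * t) - d) ^ 2 = r ^ 2) 
    (h1 : ((2) - c) ^ 2 + ((2 * s * t + 4 * t) - d) ^ 2 = r ^ 2) 
    (h2 : ((2) - c) ^ 2 + ((2 * s * t - 4 * t) - d) ^ 2 = r ^ 2) 
    (h3 : ((-1 - 3 * s) - c) ^ 2 + ((s * t - t) - d) ^ 2 = r ^ 2) : False := by
  have : (1 : ℝ) = 0 := by
    linear_combination ((-1/48 : ℝ)) * h0 +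
      ((1/64 : ℝ) + (-1/192 : ℝ)*s) * h1 +
      ((1/96 : ℝ)) * h2 +
      ((-1/192 : ℝ) + (1/192 : ℝ)*s) * h3 +
      ((1/64 : ℝ) + (-1/32 : ℝ)*c + (-1/96 : ℝ)*d*t + (-3/64 : ℝ)*s + (1/64 : ℝ)*s*t^2 + (1/64 : ℝ)*t^2) * hs +
      ((-1/3 : ℝ) + (1/16 : ℝ)*s) * ht
  exact one_ne_zero this

theorem nine (hs : s ^ 2 = 5) (ht : t ^ 2 = 3) {a u v k0 k1 k2 k3 k4 k5 : ℝ}
    (h0 : a * ((0) ^ 2 + (0) ^ 2) ^ 2 + (u * (0) + v * (0)) * ((0) ^ 2 + (0) ^ 2) +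
      (k0 * (0) ^ 2 + k1 * ((0) * (0)) + k2 * (0) ^ 2 + k3 * (0) + k4 * (0) + k5) = 0)
    (h1 : a * ((8) ^ 2 + (0) ^ 2) ^ 2 + (u * (8) + v * (0)) * ((8) ^ 2 + (0) ^ 2) +
      (k0 * (8) ^ 2 + k1 * ((8) * (0)) + k2 * (0) ^ 2 + k3 * (8) + k4 * (0) + k5) = 0)
    (h2 : a * ((2) ^ 2 + (2 * s * t) ^ 2) ^ 2 + (u * (2) + v * (2 * s * t)) * ((2) ^ 2 + (2 * s * t) ^ 2) +
      (k0 * (2) ^ 2 + k1 * ((2) * (2 * s * t)) + k2 * (2 * s * t) ^ 2 + k3 * (2) + k4 * (2 * s * t) + k5) = 0)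
    (h3 : a * ((-4) ^ 2 + (4 * t) ^ 2) ^ 2 + (u * (-4) + v * (4 * t)) * ((-4) ^ 2 + (4 * t) ^ 2) +
      (k0 * (-4) ^ 2 + k1 * ((-4) * (4 * t)) + k2 * (4 * t) ^ 2 + k3 * (-4) + k4 * (4 * t) + k5) = 0)
    (h4 : a * ((-4) ^ 2 + (-4 * t) ^ 2) ^ 2 + (u * (-4) + v * (-4 * t)) * ((-4) ^ 2 + (-4 * t) ^ 2) +
      (k0 * (-4) ^ 2 + k1 * ((-4) * (-4 * t)) + k2 * (-4 * t) ^ 2 + k3 * (-4) + k4 * (-4 * t) + k5) = 0)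
    (h5 : a * ((-1) ^ 2 + (s * t) ^ 2) ^ 2 + (u * (-1) + v * (s * t)) * ((-1) ^ 2 + (s * t) ^ 2) +
      (k0 * (-1) ^ 2 + k1 * ((-1) * (s * t)) + k2 * (s * t) ^ 2 + k3 * (-1) + k4 * (s * t) + k5) = 0)
    (h6 : a * ((2) ^ 2 + (2 * s * t + 4 * t) ^ 2) ^ 2 + (u * (2) + v * (2 * s * t + 4 * t)) * ((2) ^ 2 + (2 * s * t + 4 * t) ^ 2) +
      (k0 * (2) ^ 2 + k1 * ((2) * (2 * s * t + 4 * t)) + k2 * (2 * s * t + 4 * t) ^ 2 + k3 * (2) + k4 * (2 * s * t + 4 * t) + k5) = 0)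
    (h7 : a * ((2) ^ 2 + (2 * s * t - 4 * t) ^ 2) ^ 2 + (u * (2) + v * (2 * s * t - 4 * t)) * ((2) ^ 2 + (2 * s * t - 4 * t) ^ 2) +
      (k0 * (2) ^ 2 + k1 * ((2) * (2 * s * t - 4 * t)) + k2 * (2 * s * t - 4 * t) ^ 2 + k3 * (2) + k4 * (2 * s * t - 4 * t) + k5) = 0)
    (h8 : a * ((-1 - 3 * s) ^ 2 + (s * t - t) ^ 2) ^ 2 + (u * (-1 - 3 * s) + v * (s * t - t)) * ((-1 - 3 * s) ^ 2 + (s * t - t) ^ 2) +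
      (k0 * (-1 - 3 * s) ^ 2 + k1 * ((-1 - 3 * s) * (s * t - t)) + k2 * (s * t - t) ^ 2 + k3 * (-1 - 3 * s) + k4 * (s * t - t) + k5) = 0) :
    a = 0 ∧ u = 0 ∧ v = 0 ∧ k0 = 0 ∧ k1 = 0 ∧ k2 = 0 ∧ k3 = 0 ∧ k4 = 0 ∧ k5 = 0 := by
  have g0 : ((1 : ℝ)*k5) = 0 := by
    linear_combination ((1 : ℝ)) * h0
  have g1 : ((4096 : ℝ)*a + (64 : ℝ)*k0 + (8 : ℝ)*k3 + (1 : ℝ)*k5 + (512 : ℝ)*u) = 0 := by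
    linear_combination ((1 : ℝ)) * h1
  have g2 : ((4096 : ℝ)*a + (4 : ℝ)*k0 + (4 : ℝ)*k1*s*t + (60 : ℝ)*k2 + (2 : ℝ)*k3 + (2 : ℝ)*k4*s*t + (1 : ℝ)*k5 + (128 : ℝ)*s*t*v + (128 : ℝ)*u) = 0 := by
    linear_combination ((1 : ℝ)) * h2 +
      ((-16 : ℝ)*a*s^2*t^4 + (-32 : ℝ)*a*t^2 + (-80 : ℝ)*a*t^4 + (-4 : ℝ)*k2*t^2 + (-8 : ℝ)*s*t^3*v + (-8 : ℝ)*t^2*u) * hs +
      ((-1360 : ℝ)*a + (-400 : ℝ)*a*t^2 + (-20 : ℝ)*k2 + (-40 : ℝ)*s*t*v + (-40 : ℝ)*u) * ht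
  have g3 : ((4096 : ℝ)*a + (16 : ℝ)*k0 + (-16 : ℝ)*k1*t + (48 : ℝ)*k2 + (-4 : ℝ)*k3 + (4 : ℝ)*k4*t + (1 : ℝ)*k5 + (256 : ℝ)*t*v + (-256 : ℝ)*u) = 0 := by
    linear_combination ((1 : ℝ)) * h3 +
      ((-1280 : ℝ)*a + (-256 : ℝ)*a*t^2 + (-16 : ℝ)*k2 + (-64 : ℝ)*t*v + (64 : ℝ)*u) * ht
  have g4 : ((4096 : ℝ)*a + (16 : ℝ)*k0 + (16 : ℝ)*k1*t + (48 : ℝ)*k2 + (-4 : ℝ)*k3 + (-4 : ℝ)*k4*t + (1 : ℝ)*k5 + (-256 : ℝ)*t*v + (-256 : ℝ)*u) = 0 := by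
    linear_combination ((1 : ℝ)) * h4 +
      ((-1280 : ℝ)*a + (-256 : ℝ)*a*t^2 + (-16 : ℝ)*k2 + (64 : ℝ)*t*v + (64 : ℝ)*u) * ht
  have g5 : ((256 : ℝ)*a + (1 : ℝ)*k0 + (-1 : ℝ)*k1*s*t + (15 : ℝ)*k2 + (-1 : ℝ)*k3 + (1 : ℝ)*k4*s*t + (1 : ℝ)*k5 + (16 : ℝ)*s*t*v + (-16 : ℝ)*u) = 0 := by
    linear_combination ((1 : ℝ)) * h5 +
      ((-1 : ℝ)*a*s^2*t^4 + (-2 : ℝ)*a*t^2 + (-5 : ℝ)*a*t^4 + (-1 : ℝ)*k2*t^2 + (-1 : ℝ)*s*t^3*v + (1 : ℝ)*t^2*u) * hs +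
      ((-85 : ℝ)*a + (-25 : ℝ)*a*t^2 + (-5 : ℝ)*k2 + (-5 : ℝ)*s*t*v + (5 : ℝ)*u) * ht
  have g6 : ((24064 : ℝ)*a + (10752 : ℝ)*a*s + (4 : ℝ)*k0 + (4 : ℝ)*k1*s*t + (8 : ℝ)*k1*t + (108 : ℝ)*k2 + (48 : ℝ)*k2*s + (2 : ℝ)*k3 + (2 : ℝ)*k4*s*t + (4 : ℝ)*k4*t + (1 : ℝ)*k5 + (416 : ℝ)*s*t*v + (96 : ℝ)*s*u + (928 : ℝ)*t*v + (224 : ℝ)*u) = 0 := by
    linear_combination ((1 : ℝ)) * h6 +
      ((-128 : ℝ)*a*s*t^4 + (-16 : ℝ)*a*s^2*t^4 + (-32 : ℝ)*a*t^2 + (-464 : ℝ)*a*t^4 + (-4 : ℝ)*k2*t^2 + (-8 : ℝ)*s*t^3*v + (-8 : ℝ)*t^2*u + (-48 : ℝ)*t^3*v) * hs +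
      ((-8016 : ℝ)*a + (-3584 : ℝ)*a*s + (-1152 : ℝ)*a*s*t^2 + (-2576 : ℝ)*a*t^2 + (-36 : ℝ)*k2 + (-16 : ℝ)*k2*s + (-136 : ℝ)*s*t*v + (-32 : ℝ)*s*u + (-304 : ℝ)*t*v + (-72 : ℝ)*u) * ht
  have g7 : ((24064 : ℝ)*a + (-10752 : ℝ)*a*s + (4 : ℝ)*k0 + (4 : ℝ)*k1*s*t + (-8 : ℝ)*k1*t + (108 : ℝ)*k2 + (-48 : ℝ)*k2*s + (2 : ℝ)*k3 + (2 : ℝ)*k4*s*t + (-4 : ℝ)*k4*t + (1 : ℝ)*k5 + (416 : ℝ)*s*t*v + (-96 : ℝ)*s*u + (-928 : ℝ)*t*v + (224 : ℝ)*u) = 0 := by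
    linear_combination ((1 : ℝ)) * h7 +
      ((128 : ℝ)*a*s*t^4 + (-16 : ℝ)*a*s^2*t^4 + (-32 : ℝ)*a*t^2 + (-464 : ℝ)*a*t^4 + (-4 : ℝ)*k2*t^2 + (-8 : ℝ)*s*t^3*v + (-8 : ℝ)*t^2*u + (48 : ℝ)*t^3*v) * hs +
      ((-8016 : ℝ)*a + (3584 : ℝ)*a*s + (1152 : ℝ)*a*s*t^2 + (-2576 : ℝ)*a*t^2 + (-36 : ℝ)*k2 + (16 : ℝ)*k2*s + (-136 : ℝ)*s*t*v + (32 : ℝ)*s*u + (304 : ℝ)*t*v + (-72 : ℝ)*u) * ht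
  have g8 : ((4096 : ℝ)*a + (46 : ℝ)*k0 + (6 : ℝ)*k0*s + (2 : ℝ)*k1*s*t + (-14 : ℝ)*k1*t + (18 : ℝ)*k2 + (-6 : ℝ)*k2*s + (-1 : ℝ)*k3 + (-3 : ℝ)*k3*s + (1 : ℝ)*k4*s*t + (-1 : ℝ)*k4*t + (1 : ℝ)*k5 + (64 : ℝ)*s*t*v + (-192 : ℝ)*s*u + (-64 : ℝ)*t*v + (-64 : ℝ)*u) = 0 := by
    linear_combination ((1 : ℝ)) * h8 +
      ((-459 : ℝ)*a + (-108 : ℝ)*a*s + (24 : ℝ)*a*s*t^2 + (4 : ℝ)*a*s*t^4 + (-81 : ℝ)*a*s^2 + (-18 : ℝ)*a*s^2*t^2 + (-1 : ℝ)*a*s^2*t^4 + (-86 : ℝ)*a*t^2 + (-11 : ℝ)*a*t^4 + (-9 : ℝ)*k0 + (3 : ℝ)*k1*t + (-1 : ℝ)*k2*t^2 + (-9 : ℝ)*s*t*v + (3 : ℝ)*s*t^2*u + (-1 : ℝ)*s*t^3*v + (27 : ℝ)*s*u + (3 : ℝ)*t*v + (-5 : ℝ)*t^2*u + (3 : ℝ)*t^3*v + (27 : ℝ)*u) * hs +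
      ((-600 : ℝ)*a + (184 : ℝ)*a*s + (24 : ℝ)*a*s*t^2 + (-56 : ℝ)*a*t^2 + (-6 : ℝ)*k2 + (2 : ℝ)*k2*s + (-8 : ℝ)*s*t*v + (16 : ℝ)*s*u + (16 : ℝ)*t*v + (-24 : ℝ)*u) * ht
  refine ⟨?_, ?_, ?_, ?_, ?_, ?_, ?_, ?_, ?_⟩
  · linear_combination ((-1/2048 : ℝ)) * g0 +
      ((-1/4608 : ℝ)) * g2 +
      ((-1/36864 : ℝ) + (-1/36864 : ℝ)*s) * g3 +
      ((-1/36864 : ℝ) + (1/36864 : ℝ)*s) * g4 +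
      ((1/2304 : ℝ)) * g5 +
      ((1/6144 : ℝ) + (-1/18432 : ℝ)*s) * g6 +
      ((1/6144 : ℝ) + (1/18432 : ℝ)*s) * g7 +
      ((7/6 : ℝ)*a + (1/192 : ℝ)*k2 + (1/96 : ℝ)*u) * hs
  · linear_combination ((3/512 : ℝ)) * g0 +
      ((13/9216 : ℝ) + (-1/9216 : ℝ)*s) * g1 +
      ((1/768 : ℝ) + (-1/2304 : ℝ)*s) * g2 +
      ((-1/2304 : ℝ)) * g3 +
      ((-1/1024 : ℝ) + (1/3072 : ℝ)*s) * g4 +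
      ((1/576 : ℝ)) * g5 +
      ((-1/256 : ℝ) + (1/576 : ℝ)*s) * g6 +
      ((-1/256 : ℝ) + (-1/576 : ℝ)*s) * g7 +
      ((-5/4608 : ℝ) + (1/4608 : ℝ)*s) * g8 +
      ((-112/3 : ℝ)*a + (-1/768 : ℝ)*k0 + (1/768 : ℝ)*k1*t + (-127/768 : ℝ)*k2 + (1/1536 : ℝ)*k3 + (1/1536 : ℝ)*k4*t + (1/24 : ℝ)*t*v + (-7/24 : ℝ)*u) * hs
  · linear_combination ((1/512 : ℝ)*s*t) * g0 +
      ((-1/9216 : ℝ)*s*t + (1/9216 : ℝ)*t) * g1 +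
      ((1/2304 : ℝ)*s*t + (1/2304 : ℝ)*t) * g2 +
      ((1/2304 : ℝ)*t) * g3 +
      ((1/9216 : ℝ)*s*t + (-7/9216 : ℝ)*t) * g4 +
      ((-1/576 : ℝ)*s*t) * g5 +
      ((-1/2304 : ℝ)*s*t + (1/1152 : ℝ)*t) * g6 +
      ((-1/2304 : ℝ)*s*t + (-1/1152 : ℝ)*t) * g7 +
      ((1/4608 : ℝ)*s*t + (-1/4608 : ℝ)*t) * g8 +
      ((-1/768 : ℝ)*k0*t + (-1/2304 : ℝ)*k1*t^2 + (1/768 : ℝ)*k2*t + (1/1536 : ℝ)*k3*t + (11/4608 : ℝ)*k4*t^2 + (1/24 : ℝ)*t*u + (23/72 : ℝ)*t^2*v) * hs +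
      ((-1/3 : ℝ)*v) * ht
  · linear_combination ((1/64 : ℝ)) * g0 +
      ((1/288 : ℝ) + (1/576 : ℝ)*s) * g1 +
      ((1/144 : ℝ)*s) * g2 +
      ((1/576 : ℝ)) * g3 +
      ((1/96 : ℝ) + (-1/192 : ℝ)*s) * g4 +
      ((-1/36 : ℝ)) * g5 +
      ((-1/96 : ℝ) + (1/288 : ℝ)*s) * g6 +
      ((-1/96 : ℝ) + (-1/288 : ℝ)*s) * g7 +
      ((5/288 : ℝ) + (-1/288 : ℝ)*s) * g8 +
      ((-224/3 : ℝ)*a + (1/48 : ℝ)*k0 + (-1/48 : ℝ)*k1*t + (-17/48 : ℝ)*k2 + (-1/96 : ℝ)*k3 + (-1/96 : ℝ)*k4*t + (-2/3 : ℝ)*t*v + (-4/3 : ℝ)*u) * hs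
  · linear_combination ((-1/288 : ℝ)*s*t + (1/288 : ℝ)*t) * g1 +
      ((1/72 : ℝ)*t) * g2 +
      ((-1/288 : ℝ)*s*t + (-1/96 : ℝ)*t) * g3 +
      ((1/144 : ℝ)*s*t + (-1/144 : ℝ)*t) * g8 +
      ((-1/24 : ℝ)*k0*t + (-1/72 : ℝ)*k1*t^2 + (1/24 : ℝ)*k2*t + (1/48 : ℝ)*k3*t + (-1/144 : ℝ)*k4*t^2 + (4/3 : ℝ)*t*u + (-4/9 : ℝ)*t^2*v) * hs +
      ((-1/3 : ℝ)*k1) * ht
  · linear_combination ((1/64 : ℝ)) * g0 +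
      ((1/144 : ℝ) + (-1/576 : ℝ)*s) * g1 +
      ((1/36 : ℝ) + (-1/144 : ℝ)*s) * g2 +
      ((7/576 : ℝ) + (1/288 : ℝ)*s) * g3 +
      ((1/288 : ℝ) + (1/576 : ℝ)*s) * g4 +
      ((-1/36 : ℝ)) * g5 +
      ((-1/96 : ℝ) + (1/288 : ℝ)*s) * g6 +
      ((-1/96 : ℝ) + (-1/288 : ℝ)*s) * g7 +
      ((-5/288 : ℝ) + (1/288 : ℝ)*s) * g8 +
      ((-224/3 : ℝ)*a + (-1/48 : ℝ)*k0 + (1/48 : ℝ)*k1*t + (-5/16 : ℝ)*k2 + (1/96 : ℝ)*k3 + (1/96 : ℝ)*k4*t + (2/3 : ℝ)*t*v) * hs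
  · linear_combination ((-3/8 : ℝ)) * g0 +
      ((1/144 : ℝ) + (-1/144 : ℝ)*s) * g1 +
      ((1/36 : ℝ) + (-1/36 : ℝ)*s) * g2 +
      ((1/36 : ℝ) + (1/72 : ℝ)*s) * g3 +
      ((-1/144 : ℝ) + (1/144 : ℝ)*s) * g4 +
      ((-1/9 : ℝ)) * g5 +
      ((1/4 : ℝ) + (-1/9 : ℝ)*s) * g6 +
      ((1/4 : ℝ) + (1/9 : ℝ)*s) * g7 +
      ((-5/72 : ℝ) + (1/72 : ℝ)*s) * g8 +
      ((7168/3 : ℝ)*a + (-1/12 : ℝ)*k0 + (1/12 : ℝ)*k1*t + (43/4 : ℝ)*k2 + (1/24 : ℝ)*k3 + (1/24 : ℝ)*k4*t + (8/3 : ℝ)*t*v + (24 : ℝ)*u) * hs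
  · linear_combination ((-1/8 : ℝ)*s*t) * g0 +
      ((-1/144 : ℝ)*s*t + (1/144 : ℝ)*t) * g1 +
      ((-1/36 : ℝ)*s*t + (1/36 : ℝ)*t) * g2 +
      ((-1/72 : ℝ)*s*t + (-1/36 : ℝ)*t) * g3 +
      ((-1/144 : ℝ)*s*t + (1/144 : ℝ)*t) * g4 +
      ((1/9 : ℝ)*s*t) * g5 +
      ((1/36 : ℝ)*s*t + (-1/18 : ℝ)*t) * g6 +
      ((1/36 : ℝ)*s*t + (1/18 : ℝ)*t) * g7 +
      ((1/72 : ℝ)*s*t + (-1/72 : ℝ)*t) * g8 +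
      ((-1/12 : ℝ)*k0*t + (-1/36 : ℝ)*k1*t^2 + (1/12 : ℝ)*k2*t + (1/24 : ℝ)*k3*t + (-13/72 : ℝ)*k4*t^2 + (8/3 : ℝ)*t*u + (-200/9 : ℝ)*t^2*v) * hs +
      ((-1/3 : ℝ)*k4) * ht
  · linear_combination ((1 : ℝ)) * g0

end Pool.Agent.P.MP_048963_co
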