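import Pool.Agent.P.MP_048963_co.Defs

/-!
Cyclic curves `a (x² + y²)² + (u x + v y) (x² + y²) + q(x, y, 1) = 0`: the class contains all the
listed curves and is invariant under inversion.
-/

namespace Pool.Agent.P.MP_048963_co

open EuclideanGeometry

/-- Coefficients of a cyclic curve. -/
structure W where
  a : ℝ
  u : ℝ
  v : ℝ
  k0 : ℝ
  k1 : ℝ
  k2 : ℝ
  k3 : ℝ
  k4 : ℝ
  k5 : ℝ

def W.ev (w : W) (x y : ℝ) : ℝ :=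
  w.a * (x ^ 2 + y ^ 2) ^ 2 + (w.u * x + w.v * y) * (x ^ 2 + y ^ 2) +
    (w.k0 * x ^ 2 + w.k1 * (x * y) + w.k2 * y ^ 2 + w.k3 * x + w.k4 * y + w.k5)

def W.IsZero (w : W) : Prop :=
  w.a = 0 ∧ w.u = 0 ∧ w.v = 0 ∧ w.k0 = 0 ∧ w.k1 = 0 ∧ w.k2 = 0 ∧ w.k3 = 0 ∧ w.k4 = 0 ∧ w.k5 = 0

theorem W.ev_of_isZero {w : W} (h : w.IsZero) (x y : ℝ) : w.ev x y = 0 := by
  obtain ⟨h0, h1, h2, h3, h4, h5, h6, h7, h8⟩ := h
  simp [W.ev, h0, h1, h2, h3, h4, h5, h6, h7, h8]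

theorem W.isZero_of_ev {w : W} (h : ∀ x y, w.ev x y = 0) : w.IsZero := by
  have e0 := h 0 0
  have e1 := h 1 0
  have e2 := h (-1) 0
  have e3 := h 2 0
  have e4 := h (-2) 0
  have e5 := h 0 1
  have e6 := h 0 (-1)
  have e7 := h 0 2
  have e8 := h 1 1
  simp only [W.ev] at e0 e1 e2 e3 e4 e5 e6 e7 e8
  norm_num at e0 e1 e2 e3 e4 e5 e6 e7 e8
  refine ⟨?_, ?_, ?_, ?_, ?_, ?_, ?_, ?_, ?_⟩ <;> linarith

theorem W.exists_translate (w : W) (c d : ℝ) :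
    ∃ w' : W, w'.a = w.a ∧ ∀ x y, w'.ev x y = w.ev (x + c) (y + d) := by
  refine ⟨⟨w.a, w.u + 4 * w.a * c, w.v + 4 * w.a * d,
    w.k0 + w.a * (6 * c ^ 2 + 2 * d ^ 2) + 3 * w.u * c + w.v * d,
    w.k1 + 8 * w.a * c * d + 2 * w.u * d + 2 * w.v * c,
    w.k2 + w.a * (2 * c ^ 2 + 6 * d ^ 2) + w.u * c + 3 * w.v * d,
    w.k3 + 4 * w.a * c * (c ^ 2 + d ^ 2) + w.u * (3 * c ^ 2 + d ^ 2) + 2 * w.v * c * d
      + 2 * w.k0 * c + w.k1 * d,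
    w.k4 + 4 * w.a * d * (c ^ 2 + d ^ 2) + w.v * (c ^ 2 + 3 * d ^ 2) + 2 * w.u * c * d
      + 2 * w.k2 * d + w.k1 * c,
    w.ev c d⟩, rfl, fun x y => ?_⟩
  simp only [W.ev]
  ring

theorem W.translate_zero {w w' : W} {c d : ℝ} (h : ∀ x y, w'.ev x y = w.ev (x + c) (y + d))
    (hz : w'.IsZero) : w.IsZero := by
  apply W.isZero_of_ev
  intro x y
  have := h (x - c) (y - d)
  rw [W.ev_of_isZero hz] at this
  simpa using this.symm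

theorem W.exists_invert (w : W) {r : ℝ} (hr : r ≠ 0) :
    ∃ w' : W, (w'.IsZero → w.IsZero) ∧ w'.ev 0 0 = r ^ 8 * w.a ∧
      ∀ x y, x ^ 2 + y ^ 2 ≠ 0 → w'.ev x y = (x ^ 2 + y ^ 2) ^ 2 *
        w.ev (r ^ 2 / (x ^ 2 + y ^ 2) * x) (r ^ 2 / (x ^ 2 + y ^ 2) * y) := by
  refine ⟨⟨w.k5, r ^ 2 * w.k3, r ^ 2 * w.k4, r ^ 4 * w.k0, r ^ 4 * w.k1, r ^ 4 * w.k2,
    r ^ 6 * w.u, r ^ 6 * w.v, r ^ 8 * w.a⟩, ?_, ?_, ?_⟩
  · rintro ⟨h0, h1, h2, h3, h4, h5, h6, h7, h8⟩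
    simp only [mul_eq_zero, pow_eq_zero_iff, ne_eq, OfNat.ofNat_ne_zero, not_false_eq_true, hr,
      false_or] at h0 h1 h2 h3 h4 h5 h6 h7 h8
    exact ⟨h8, h6, h7, h3, h4, h5, h1, h2, h0⟩
  · simp [W.ev]
  · intro x y hxy
    simp only [W.ev]
    field_simp
    ring

theorem dist_sq (p c : Pt) : dist p c ^ 2 = (p 0 - c 0) ^ 2 + (p 1 - c 1) ^ 2 := by
  rw [EuclideanSpace.dist_eq, Real.sq_sqrt (by positivity), Fin.sum_univ_two, Real.dist_eq,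
    Real.dist_eq, sq_abs, sq_abs]

theorem inversion_apply (c p : Pt) (r : ℝ) (i : Fin 2) :
    inversion c r p i =
      r ^ 2 / ((p 0 - c 0) ^ 2 + (p 1 - c 1) ^ 2) * (p i - c i) + c i := by
  rw [← dist_sq, ← div_pow]
  simp [inversion]

theorem W.exists_inversion (w : W) (c : Pt) {r : ℝ} (hr : r ≠ 0) :
    ∃ w' : W, (w'.IsZero → w.IsZero) ∧ w'.ev (c 0) (c 1) = r ^ 8 * w.a ∧
      ∀ p : Pt, p ≠ c → w.ev (inversion c r p 0) (inversion c r p 1) = 0 →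
        w'.ev (p 0) (p 1) = 0 := by
  obtain ⟨w₁, ha₁, h₁⟩ := w.exists_translate (c 0) (c 1)
  obtain ⟨w₂, hz₂, h0₂, h₂⟩ := w₁.exists_invert hr
  obtain ⟨w₃, -, h₃⟩ := w₂.exists_translate (-c 0) (-c 1)
  refine ⟨w₃, fun h => W.translate_zero h₁ (hz₂ (W.translate_zero h₃ h)), ?_, ?_⟩
  · rw [h₃, ← ha₁, ← h0₂]
    simp
  · intro p hp hev
    have hne : (p 0 - c 0) ^ 2 + (p 1 - c 1) ^ 2 ≠ 0 := by
      rw [← dist_sq]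
      exact pow_ne_zero 2 (dist_ne_zero.mpr hp)
    rw [h₃, ← sub_eq_add_neg, ← sub_eq_add_neg, h₂ _ _ hne, h₁, ← inversion_apply,
      ← inversion_apply, hev, mul_zero]

/-- `S` lies on a cyclic curve. -/
def Cyc (S : Set Pt) : Prop :=
  ∃ w : W, ¬ w.IsZero ∧ ∀ p ∈ S, w.ev (p 0) (p 1) = 0

theorem Cyc.mono {S T : Set Pt} (h : Cyc T) (hST : S ⊆ T) : Cyc S := by
  obtain ⟨w, hw, h⟩ := h
  exact ⟨w, hw, fun p hp => h p (hST hp)⟩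

theorem Cyc.of_inversion {S : Set Pt} {c : Pt} {r : ℝ} (hr : r ≠ 0) (hc : c ∉ S)
    (h : Cyc (inversion c r '' S)) : Cyc S := by
  obtain ⟨w, hw, h⟩ := h
  obtain ⟨w', hz, -, h'⟩ := w.exists_inversion c hr
  exact ⟨w', fun h0 => hw (hz h0), fun p hp =>
    h' p (fun e => hc (e ▸ hp)) (h _ ⟨p, hp, rfl⟩)⟩

theorem fin6_zero {k : Fin 6 → ℝ} (h0 : k 0 = 0) (h1 : k 1 = 0) (h2 : k 2 = 0) (h3 : k 3 = 0)
    (h4 : k 4 = 0) (h5 : k 5 = 0) : k = 0 := by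
  funext i
  fin_cases i <;> assumption

theorem IsCircularCubic.exists_w {Γ : Set Pt} (h : IsCircularCubic Γ) :
    ∃ w : W, ¬ w.IsZero ∧ w.a = 0 ∧ ∀ p ∈ Γ, w.ev (p 0) (p 1) = 0 := by
  obtain ⟨u, v, k, hk, rfl⟩ := h
  refine ⟨⟨0, u, v, k 0, k 1, k 2, k 3, k 4, k 5⟩, ?_, rfl, fun p hp => ?_⟩
  · rintro ⟨-, h1, h2, h3, h4, h5, h6, h7, h8⟩
    exact hk ⟨h1, h2, fin6_zero h3 h4 h5 h6 h7 h8⟩
  · have hp' : (u * p 0 + v * p 1) * (p 0 ^ 2 + p 1 ^ 2) + quad k p = 0 := hp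
    simp only [W.ev, quad] at hp' ⊢
    linear_combination hp'

theorem IsCircularCubic.cyc {Γ : Set Pt} (h : IsCircularCubic Γ) : Cyc Γ := by
  obtain ⟨w, hw, -, h⟩ := h.exists_w
  exact ⟨w, hw, h⟩

theorem IsConic.cyc {Γ : Set Pt} (h : IsConic Γ) : Cyc Γ := by
  obtain ⟨k, hk, rfl⟩ := h
  apply IsCircularCubic.cyc
  exact ⟨0, 0, k, fun h => hk h.2.2, by simp⟩

theorem mem_sphere_iff {p c : Pt} {r : ℝ} (h : p ∈ Metric.sphere c r) :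
    (p 0 - c 0) ^ 2 + (p 1 - c 1) ^ 2 = r ^ 2 := by
  rw [← dist_sq, Metric.mem_sphere.mp h]

theorem IsTwoCircles.cyc {Γ : Set Pt} (h : IsTwoCircles Γ) : Cyc Γ := by
  obtain ⟨_, _, ⟨c, r, -, rfl⟩, ⟨d, s, -, rfl⟩, rfl⟩ := h
  set E := c 0 ^ 2 + c 1 ^ 2 - r ^ 2 with hE
  set G := d 0 ^ 2 + d 1 ^ 2 - s ^ 2 with hG
  refine ⟨⟨1, -2 * (c 0 + d 0), -2 * (c 1 + d 1), E + G + 4 * c 0 * d 0,
    4 * (c 0 * d 1 + c 1 * d 0), E + G + 4 * c 1 * d 1, -2 * (c 0 * G + d 0 * E),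
    -2 * (c 1 * G + d 1 * E), E * G⟩, fun h => one_ne_zero h.1, fun p hp => ?_⟩
  have key : W.ev ⟨1, -2 * (c 0 + d 0), -2 * (c 1 + d 1), E + G + 4 * c 0 * d 0,
    4 * (c 0 * d 1 + c 1 * d 0), E + G + 4 * c 1 * d 1, -2 * (c 0 * G + d 0 * E),
    -2 * (c 1 * G + d 1 * E), E * G⟩ (p 0) (p 1) =
      ((p 0 - c 0) ^ 2 + (p 1 - c 1) ^ 2 - r ^ 2) *
        ((p 0 - d 0) ^ 2 + (p 1 - d 1) ^ 2 - s ^ 2) := by
    simp only [W.ev, hE, hG]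
    ring
  rw [key]
  rcases hp with hp | hp
  · rw [mem_sphere_iff hp, sub_self, zero_mul]
  · rw [mem_sphere_iff hp, sub_self, mul_zero]

theorem IsBicircularQuartic.cyc {Γ : Set Pt} (h : IsBicircularQuartic Γ) : Cyc Γ := by
  obtain ⟨Γ₀, c, r, h₀, hc, hr, rfl⟩ := h
  obtain ⟨w, hw, ha, h⟩ := h₀.exists_w
  obtain ⟨w', hz, h0, h'⟩ := w.exists_inversion c hr.ne'
  refine ⟨w', fun h0 => hw (hz h0), ?_⟩
  rintro p (⟨q, hq, rfl⟩ | hp)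
  · have hqc : q ≠ c := fun e => hc (e ▸ hq)
    apply h' _ (fun e => hqc ((inversion_eq_center hr.ne').mp e))
    rw [inversion_inversion c hr.ne']
    exact h q hq
  · rw [Set.mem_singleton_iff.mp hp, h0, ha, mul_zero]

theorem LiesUpToInversion.cyc {S Γ : Set Pt} (h : LiesUpToInversion S Γ) (hΓ : Cyc Γ) :
    Cyc S := by
  rcases h with h | ⟨c, r, hr, hc, h⟩
  · exact hΓ.mono h
  · exact Cyc.of_inversion hr.ne' hc (hΓ.mono h)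

theorem collinear_det {T : Set Pt} (h : Collinear ℝ T) {a b c : Pt} (ha : a ∈ T) (hb : b ∈ T)
    (hc : c ∈ T) : (b 0 - a 0) * (c 1 - a 1) - (b 1 - a 1) * (c 0 - a 0) = 0 := by
  obtain ⟨v, hv⟩ := (collinear_iff_of_mem ha).mp h
  obtain ⟨s, rfl⟩ := hv b hb
  obtain ⟨t, rfl⟩ := hv c hc
  simp
  ring

end Pool.Agent.P.MP_048963_co
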