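import Mathlib

/-!
Definitions for the statement on two-coloured planar point sets with no monochromatic circle.
The four curve classes below are taken wider than in the problem (no ellipticity, disjointness,
smoothness or acnode condition), so that not lying on any of them is the stronger assertion.
-/

namespace Pool.Agent.P.MP_048963_co

/-- The Euclidean plane; `p 0` and `p 1` are the coordinates `x` and `y` of a point `p`. -/
abbrev Pt := EuclideanSpace ℝ (Fin 2)

/-- A circle: centre `c`, radius `r > 0`. Lines are not circles. -/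
def IsCircle (C : Set Pt) : Prop :=
  ∃ (c : Pt) (r : ℝ), 0 < r ∧ C = Metric.sphere c r

/-- The set `S` is contained in a circle. -/
def OnCircle (S : Set Pt) : Prop :=
  ∃ C : Set Pt, IsCircle C ∧ S ⊆ C

/-- `C` is monochromatic for the red set `R` and the blue set `B`: it contains at least three
points of `R ∪ B`, and all the points of `R ∪ B` on it have the same colour. -/
def Monochromatic (R B C : Set Pt) : Prop :=
  3 ≤ (C ∩ (R ∪ B)).ncard ∧ (C ∩ (R ∪ B) ⊆ R ∨ C ∩ (R ∪ B) ⊆ B)

/-- The quadratic `q(x, y, 1)` with coefficient vector `k`. -/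
def quad (k : Fin 6 → ℝ) (p : Pt) : ℝ :=
  k 0 * p 0 ^ 2 + k 1 * (p 0 * p 1) + k 2 * p 1 ^ 2 + k 3 * p 0 + k 4 * p 1 + k 5

/-- A conic: the zero set of a nonzero polynomial of degree at most two. Every ellipse is one. -/
def IsConic (Γ : Set Pt) : Prop :=
  ∃ k : Fin 6 → ℝ, k ≠ 0 ∧ Γ = {p | quad k p = 0}

/-- A union of two circles, disjoint or not. -/
def IsTwoCircles (Γ : Set Pt) : Prop :=
  ∃ C₁ C₂ : Set Pt, IsCircle C₁ ∧ IsCircle C₂ ∧ Γ = C₁ ∪ C₂

/-- The real affine points of a circular cubic `(u x + v y) (x² + y²) + q(x, y, z) z = 0` with a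
nonzero equation, singular or not. -/
def IsCircularCubic (Γ : Set Pt) : Prop :=
  ∃ (u v : ℝ) (k : Fin 6 → ℝ), ¬ (u = 0 ∧ v = 0 ∧ k = 0) ∧
    Γ = {p | (u * p 0 + v * p 1) * (p 0 ^ 2 + p 1 ^ 2) + quad k p = 0}

/-- The image of a circular cubic under an inversion centred at a point `c` off the cubic, together
with the centre `c` (the image of the point at infinity). -/
def IsBicircularQuartic (Γ : Set Pt) : Prop :=
  ∃ (Γ₀ : Set Pt) (c : Pt) (r : ℝ), IsCircularCubic Γ₀ ∧ c ∉ Γ₀ ∧ 0 < r ∧
    Γ = EuclideanGeometry.inversion c r '' Γ₀ ∪ {c}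

/-- `S` lies on `Γ` up to inversion: `S ⊆ Γ`, or `ι(S) ⊆ Γ` for a circle inversion `ι` whose centre
is not in `S`. -/
def LiesUpToInversion (S Γ : Set Pt) : Prop :=
  S ⊆ Γ ∨ ∃ (c : Pt) (r : ℝ), 0 < r ∧ c ∉ S ∧ EuclideanGeometry.inversion c r '' S ⊆ Γ

end Pool.Agent.P.MP_048963_co
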