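import Pool.Agent.P.MP_048963_co.Cyclic
import Pool.Agent.P.MP_048963_co.Cert

/-! The nine-point configuration. -/

namespace Pool.Agent.P.MP_048963_co

set_option linter.unusedVariables false

/-- The point with coordinates `x`, `y`. -/
noncomputable def mk (x y : ℝ) : Pt := !₂[x, y]

@[simp] theorem mk_zero (x y : ℝ) : mk x y 0 = x := rfl
@[simp] theorem mk_one (x y : ℝ) : mk x y 1 = y := rfl

theorem mk_ne {a b c d : ℝ} (h : a = c → b = d → False) : mk a b ≠ mk c d := fun e =>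
  h (congrArg (fun p : Pt => p 0) e) (congrArg (fun p : Pt => p 1) e)

theorem mem_sphere_of {p c : Pt} {r : ℝ} (hr : 0 < r)
    (h : (p 0 - c 0) ^ 2 + (p 1 - c 1) ^ 2 = r ^ 2) : p ∈ Metric.sphere c r := by
  rw [← dist_sq] at h
  exact Metric.mem_sphere.mpr ((pow_left_inj₀ dist_nonneg hr.le two_ne_zero).mp h)

theorem exists_three {T : Set Pt} (h : 3 ≤ T.ncard) :
    ∃ a b c : Pt, a ∈ T ∧ b ∈ T ∧ c ∈ T ∧ a ≠ b ∧ a ≠ c ∧ b ≠ c := by
  have hf : T.Finite := Set.finite_of_ncard_ne_zero (by omega)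
  exact (Set.two_lt_ncard_iff hf).mp (by omega)

variable (s t : ℝ)

noncomputable def B0 : Pt := mk (0) (0)
noncomputable def B1 : Pt := mk (8) (0)
noncomputable def B2 : Pt := mk (2) (2 * s * t)
noncomputable def B3 : Pt := mk (-4) (4 * t)
noncomputable def B4 : Pt := mk (-4) (-4 * t)
noncomputable def R0 : Pt := mk (-1) (s * t)
noncomputable def R1 : Pt := mk (2) (2 * s * t + 4 * t)
noncomputable def R2 : Pt := mk (2) (2 * s * t - 4 * t)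
noncomputable def R3 : Pt := mk (-1 - 3 * s) (s * t - t)

noncomputable def blue : Set Pt := {B0, B1, (B2 s t), (B3 t), (B4 t)}
noncomputable def red : Set Pt := {(R0 s t), (R1 s t), (R2 s t), (R3 s t)}

variable {s t}

theorem red_blue (hs : s ^ 2 = 5) (ht : t ^ 2 = 3) {p : Pt} (hr : p ∈ red s t) (hb : p ∈ blue s t) : False := by
  rcases hb with rfl | rfl | rfl | rfl | rfl
  · rcases hr with h | h | h | h
    · exact mk_ne (ne_B0_R0 hs ht) h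
    · exact mk_ne (ne_B0_R1 hs ht) h
    · exact mk_ne (ne_B0_R2 hs ht) h
    · exact mk_ne (ne_B0_R3 hs ht) h
  · rcases hr with h | h | h | h
    · exact mk_ne (ne_B1_R0 hs ht) h
    · exact mk_ne (ne_B1_R1 hs ht) h
    · exact mk_ne (ne_B1_R2 hs ht) h
    · exact mk_ne (ne_B1_R3 hs ht) h
  · rcases hr with h | h | h | h
    · exact mk_ne (ne_B2_R0 hs ht) h
    · exact mk_ne (ne_B2_R1 hs ht) h
    · exact mk_ne (ne_B2_R2 hs ht) h
    · exact mk_ne (ne_B2_R3 hs ht) h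
  · rcases hr with h | h | h | h
    · exact mk_ne (ne_B3_R0 hs ht) h
    · exact mk_ne (ne_B3_R1 hs ht) h
    · exact mk_ne (ne_B3_R2 hs ht) h
    · exact mk_ne (ne_B3_R3 hs ht) h
  · rcases hr with h | h | h | h
    · exact mk_ne (ne_B4_R0 hs ht) h
    · exact mk_ne (ne_B4_R1 hs ht) h
    · exact mk_ne (ne_B4_R2 hs ht) h
    · exact mk_ne (ne_B4_R3 hs ht) h

theorem blue_three {T : Set Pt} (hT : T ⊆ blue s t) (h3 : 3 ≤ T.ncard)
    (h012 : B0 ∈ T → B1 ∈ T → (B2 s t) ∈ T → False)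
    (h013 : B0 ∈ T → B1 ∈ T → (B3 t) ∈ T → False)
    (h014 : B0 ∈ T → B1 ∈ T → (B4 t) ∈ T → False)
    (h023 : B0 ∈ T → (B2 s t) ∈ T → (B3 t) ∈ T → False)
    (h024 : B0 ∈ T → (B2 s t) ∈ T → (B4 t) ∈ T → False)
    (h034 : B0 ∈ T → (B3 t) ∈ T → (B4 t) ∈ T → False)
    (h123 : B1 ∈ T → (B2 s t) ∈ T → (B3 t) ∈ T → False)
    (h124 : B1 ∈ T → (B2 s t) ∈ T → (B4 t) ∈ T → False)
    (h134 : B1 ∈ T → (B3 t) ∈ T → (B4 t) ∈ T → False)
    (h234 : (B2 s t) ∈ T → (B3 t) ∈ T → (B4 t) ∈ T → False) : False := by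
  obtain ⟨a, b, c, ha, hb, hc, hab, hac, hbc⟩ := exists_three h3
  rcases hT ha with rfl | rfl | rfl | rfl | rfl <;> rcases hT hb with rfl | rfl | rfl | rfl | rfl <;>
    rcases hT hc with rfl | rfl | rfl | rfl | rfl <;>
    first
    | exact hab rfl | exact hac rfl | exact hbc rfl
    | exact h012 ‹_› ‹_› ‹_› | exact h013 ‹_› ‹_› ‹_› | exact h014 ‹_› ‹_› ‹_› | exact h023 ‹_› ‹_› ‹_› | exact h024 ‹_› ‹_› ‹_› | exact h034 ‹_› ‹_› ‹_› | exact h123 ‹_› ‹_› ‹_› | exact h124 ‹_› ‹_› ‹_› | exact h134 ‹_› ‹_› ‹_› | exact h234 ‹_› ‹_› ‹_›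

theorem blue_not_collinear (hs : s ^ 2 = 5) (ht : t ^ 2 = 3) {T : Set Pt} (hT : T ⊆ blue s t) (h3 : 3 ≤ T.ncard) :
    ¬ Collinear ℝ T := fun h =>
  blue_three hT h3
    (fun h0 h1 h2 => col_B0_B1_B2 hs ht (collinear_det h h0 h1 h2))
    (fun h0 h1 h2 => col_B0_B1_B3 hs ht (collinear_det h h0 h1 h2))
    (fun h0 h1 h2 => col_B0_B1_B4 hs ht (collinear_det h h0 h1 h2))
    (fun h0 h1 h2 => col_B0_B2_B3 hs ht (collinear_det h h0 h1 h2))
    (fun h0 h1 h2 => col_B0_B2_B4 hs ht (collinear_det h h0 h1 h2))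
    (fun h0 h1 h2 => col_B0_B3_B4 hs ht (collinear_det h h0 h1 h2))
    (fun h0 h1 h2 => col_B1_B2_B3 hs ht (collinear_det h h0 h1 h2))
    (fun h0 h1 h2 => col_B1_B2_B4 hs ht (collinear_det h h0 h1 h2))
    (fun h0 h1 h2 => col_B1_B3_B4 hs ht (collinear_det h h0 h1 h2))
    (fun h0 h1 h2 => col_B2_B3_B4 hs ht (collinear_det h h0 h1 h2))

theorem blue_not_mono (hs : s ^ 2 = 5) (ht : t ^ 2 = 3) {c : Pt} {r : ℝ} (hr : 0 < r)
    (h3 : 3 ≤ (Metric.sphere c r ∩ (red s t ∪ blue s t)).ncard)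
    (hT : Metric.sphere c r ∩ (red s t ∪ blue s t) ⊆ blue s t) : False :=
  blue_three hT h3
    (fun h0 h1 h2 =>
      have hw : (R0 s t) ∈ Metric.sphere c r := mem_sphere_of hr
        (circ_B0_B1_B2 hs ht (mem_sphere_iff h0.1) (mem_sphere_iff h1.1) (mem_sphere_iff h2.1))
      red_blue hs ht (Or.inl rfl) (hT ⟨hw, Or.inl (Or.inl rfl)⟩))
    (fun h0 h1 h2 =>
      have hw : (R1 s t) ∈ Metric.sphere c r := mem_sphere_of hr
        (circ_B0_B1_B3 hs ht (mem_sphere_iff h0.1) (mem_sphere_iff h1.1) (mem_sphere_iff h2.1))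
      red_blue hs ht (Or.inr (Or.inl rfl)) (hT ⟨hw, Or.inl (Or.inr (Or.inl rfl))⟩))
    (fun h0 h1 h2 =>
      have hw : (R2 s t) ∈ Metric.sphere c r := mem_sphere_of hr
        (circ_B0_B1_B4 hs ht (mem_sphere_iff h0.1) (mem_sphere_iff h1.1) (mem_sphere_iff h2.1))
      red_blue hs ht (Or.inr (Or.inr (Or.inl rfl))) (hT ⟨hw, Or.inl (Or.inr (Or.inr (Or.inl rfl)))⟩))
    (fun h0 h1 h2 =>
      have hw : (R2 s t) ∈ Metric.sphere c r := mem_sphere_of hr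
        (circ_B0_B2_B3 hs ht (mem_sphere_iff h0.1) (mem_sphere_iff h1.1) (mem_sphere_iff h2.1))
      red_blue hs ht (Or.inr (Or.inr (Or.inl rfl))) (hT ⟨hw, Or.inl (Or.inr (Or.inr (Or.inl rfl)))⟩))
    (fun h0 h1 h2 =>
      have hw : (R1 s t) ∈ Metric.sphere c r := mem_sphere_of hr
        (circ_B0_B2_B4 hs ht (mem_sphere_iff h0.1) (mem_sphere_iff h1.1) (mem_sphere_iff h2.1))
      red_blue hs ht (Or.inr (Or.inl rfl)) (hT ⟨hw, Or.inl (Or.inr (Or.inl rfl))⟩))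
    (fun h0 h1 h2 =>
      have hw : (R0 s t) ∈ Metric.sphere c r := mem_sphere_of hr
        (circ_B0_B3_B4 hs ht (mem_sphere_iff h0.1) (mem_sphere_iff h1.1) (mem_sphere_iff h2.1))
      red_blue hs ht (Or.inl rfl) (hT ⟨hw, Or.inl (Or.inl rfl)⟩))
    (fun h0 h1 h2 =>
      have hw : (R3 s t) ∈ Metric.sphere c r := mem_sphere_of hr
        (circ_B1_B2_B3 hs ht (mem_sphere_iff h0.1) (mem_sphere_iff h1.1) (mem_sphere_iff h2.1))
      red_blue hs ht (Or.inr (Or.inr (Or.inr rfl))) (hT ⟨hw, Or.inl (Or.inr (Or.inr (Or.inr rfl)))⟩))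
    (fun h0 h1 h2 =>
      have hw : (R3 s t) ∈ Metric.sphere c r := mem_sphere_of hr
        (circ_B1_B2_B4 hs ht (mem_sphere_iff h0.1) (mem_sphere_iff h1.1) (mem_sphere_iff h2.1))
      red_blue hs ht (Or.inr (Or.inr (Or.inr rfl))) (hT ⟨hw, Or.inl (Or.inr (Or.inr (Or.inr rfl)))⟩))
    (fun h0 h1 h2 =>
      have hw : (R3 s t) ∈ Metric.sphere c r := mem_sphere_of hr
        (circ_B1_B3_B4 hs ht (mem_sphere_iff h0.1) (mem_sphere_iff h1.1) (mem_sphere_iff h2.1))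
      red_blue hs ht (Or.inr (Or.inr (Or.inr rfl))) (hT ⟨hw, Or.inl (Or.inr (Or.inr (Or.inr rfl)))⟩))
    (fun h0 h1 h2 =>
      have hw : (R3 s t) ∈ Metric.sphere c r := mem_sphere_of hr
        (circ_B2_B3_B4 hs ht (mem_sphere_iff h0.1) (mem_sphere_iff h1.1) (mem_sphere_iff h2.1))
      red_blue hs ht (Or.inr (Or.inr (Or.inr rfl))) (hT ⟨hw, Or.inl (Or.inr (Or.inr (Or.inr rfl)))⟩))

theorem blue_not_onCircle (hs : s ^ 2 = 5) (ht : t ^ 2 = 3) : ¬ OnCircle (blue s t) := by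
  rintro ⟨_, ⟨c, r, -, rfl⟩, h⟩
  exact ncirc_B0_B1_B2_B3 hs ht
    (mem_sphere_iff (h (Or.inl rfl)))
    (mem_sphere_iff (h (Or.inr (Or.inl rfl))))
    (mem_sphere_iff (h (Or.inr (Or.inr (Or.inl rfl)))))
    (mem_sphere_iff (h (Or.inr (Or.inr (Or.inr (Or.inl rfl))))))

theorem blue_not_collinear' (hs : s ^ 2 = 5) (ht : t ^ 2 = 3) : ¬ Collinear ℝ (blue s t) := fun h =>
  col_B0_B1_B2 hs ht (collinear_det h (Or.inl rfl) (Or.inr (Or.inl rfl)) (Or.inr (Or.inr (Or.inl rfl))))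

theorem red_three {T : Set Pt} (hT : T ⊆ red s t) (h3 : 3 ≤ T.ncard)
    (h567 : (R0 s t) ∈ T → (R1 s t) ∈ T → (R2 s t) ∈ T → False)
    (h568 : (R0 s t) ∈ T → (R1 s t) ∈ T → (R3 s t) ∈ T → False)
    (h578 : (R0 s t) ∈ T → (R2 s t) ∈ T → (R3 s t) ∈ T → False)
    (h678 : (R1 s t) ∈ T → (R2 s t) ∈ T → (R3 s t) ∈ T → False) : False := by
  obtain ⟨a, b, c, ha, hb, hc, hab, hac, hbc⟩ := exists_three h3
  rcases hT ha with rfl | rfl | rfl | rfl <;> rcases hT hb with rfl | rfl | rfl | rfl <;>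
    rcases hT hc with rfl | rfl | rfl | rfl <;>
    first
    | exact hab rfl | exact hac rfl | exact hbc rfl
    | exact h567 ‹_› ‹_› ‹_› | exact h568 ‹_› ‹_› ‹_› | exact h578 ‹_› ‹_› ‹_› | exact h678 ‹_› ‹_› ‹_›

theorem red_not_collinear (hs : s ^ 2 = 5) (ht : t ^ 2 = 3) {T : Set Pt} (hT : T ⊆ red s t) (h3 : 3 ≤ T.ncard) :
    ¬ Collinear ℝ T := fun h =>
  red_three hT h3
    (fun h0 h1 h2 => col_R0_R1_R2 hs ht (collinear_det h h0 h1 h2))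
    (fun h0 h1 h2 => col_R0_R1_R3 hs ht (collinear_det h h0 h1 h2))
    (fun h0 h1 h2 => col_R0_R2_R3 hs ht (collinear_det h h0 h1 h2))
    (fun h0 h1 h2 => col_R1_R2_R3 hs ht (collinear_det h h0 h1 h2))

theorem red_not_mono (hs : s ^ 2 = 5) (ht : t ^ 2 = 3) {c : Pt} {r : ℝ} (hr : 0 < r)
    (h3 : 3 ≤ (Metric.sphere c r ∩ (red s t ∪ blue s t)).ncard)
    (hT : Metric.sphere c r ∩ (red s t ∪ blue s t) ⊆ red s t) : False :=
  red_three hT h3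
    (fun h0 h1 h2 =>
      have hw : B1 ∈ Metric.sphere c r := mem_sphere_of hr
        (circ_R0_R1_R2 hs ht (mem_sphere_iff h0.1) (mem_sphere_iff h1.1) (mem_sphere_iff h2.1))
      red_blue hs ht (hT ⟨hw, Or.inr (Or.inr (Or.inl rfl))⟩) (Or.inr (Or.inl rfl)))
    (fun h0 h1 h2 =>
      have hw : (B2 s t) ∈ Metric.sphere c r := mem_sphere_of hr
        (circ_R0_R1_R3 hs ht (mem_sphere_iff h0.1) (mem_sphere_iff h1.1) (mem_sphere_iff h2.1))
      red_blue hs ht (hT ⟨hw, Or.inr (Or.inr (Or.inr (Or.inl rfl)))⟩) (Or.inr (Or.inr (Or.inl rfl))))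
    (fun h0 h1 h2 =>
      have hw : (B4 t) ∈ Metric.sphere c r := mem_sphere_of hr
        (circ_R0_R2_R3 hs ht (mem_sphere_iff h0.1) (mem_sphere_iff h1.1) (mem_sphere_iff h2.1))
      red_blue hs ht (hT ⟨hw, Or.inr (Or.inr (Or.inr (Or.inr (Or.inr rfl))))⟩) (Or.inr (Or.inr (Or.inr (Or.inr rfl)))))
    (fun h0 h1 h2 =>
      have hw : B0 ∈ Metric.sphere c r := mem_sphere_of hr
        (circ_R1_R2_R3 hs ht (mem_sphere_iff h0.1) (mem_sphere_iff h1.1) (mem_sphere_iff h2.1))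
      red_blue hs ht (hT ⟨hw, Or.inr (Or.inl rfl)⟩) (Or.inl rfl))

theorem red_not_onCircle (hs : s ^ 2 = 5) (ht : t ^ 2 = 3) : ¬ OnCircle (red s t) := by
  rintro ⟨_, ⟨c, r, -, rfl⟩, h⟩
  exact ncirc_R0_R1_R2_R3 hs ht
    (mem_sphere_iff (h (Or.inl rfl)))
    (mem_sphere_iff (h (Or.inr (Or.inl rfl))))
    (mem_sphere_iff (h (Or.inr (Or.inr (Or.inl rfl)))))
    (mem_sphere_iff (h (Or.inr (Or.inr (Or.inr rfl)))))

theorem red_not_collinear' (hs : s ^ 2 = 5) (ht : t ^ 2 = 3) : ¬ Collinear ℝ (red s t) := fun h =>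
  col_R0_R1_R2 hs ht (collinear_det h (Or.inl rfl) (Or.inr (Or.inl rfl)) (Or.inr (Or.inr (Or.inl rfl))))

theorem not_cyc (hs : s ^ 2 = 5) (ht : t ^ 2 = 3) : ¬ Cyc (red s t ∪ blue s t) := by
  rintro ⟨w, hw, h⟩
  exact hw (nine hs ht
    (h B0 (Or.inr (Or.inl rfl)))
    (h B1 (Or.inr (Or.inr (Or.inl rfl))))
    (h (B2 s t) (Or.inr (Or.inr (Or.inr (Or.inl rfl)))))
    (h (B3 t) (Or.inr (Or.inr (Or.inr (Or.inr (Or.inl rfl))))))
    (h (B4 t) (Or.inr (Or.inr (Or.inr (Or.inr (Or.inr rfl))))))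
    (h (R0 s t) (Or.inl (Or.inl rfl)))
    (h (R1 s t) (Or.inl (Or.inr (Or.inl rfl))))
    (h (R2 s t) (Or.inl (Or.inr (Or.inr (Or.inl rfl)))))
    (h (R3 s t) (Or.inl (Or.inr (Or.inr (Or.inr rfl))))))

theorem main :
    ∃ R B : Set Pt, R.Finite ∧ B.Finite ∧ Disjoint R B ∧
      ¬ Collinear ℝ (R ∪ B) ∧ ¬ OnCircle (R ∪ B) ∧
      (∀ C : Set Pt, IsCircle C → ¬ Monochromatic R B C) ∧
      (∀ T : Set Pt, T ⊆ R ∨ T ⊆ B → 3 ≤ T.ncard → ¬ Collinear ℝ T) ∧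
      ¬ OnCircle R ∧ ¬ OnCircle B ∧ ¬ Collinear ℝ R ∧ ¬ Collinear ℝ B ∧
      ∀ Γ : Set Pt,
        IsConic Γ ∨ IsTwoCircles Γ ∨ IsCircularCubic Γ ∨ IsBicircularQuartic Γ →
          ¬ LiesUpToInversion (R ∪ B) Γ := by
  have hs : Real.sqrt 5 ^ 2 = 5 := Real.sq_sqrt (by norm_num)
  have ht : Real.sqrt 3 ^ 2 = 3 := Real.sq_sqrt (by norm_num)
  refine ⟨red (Real.sqrt 5) (Real.sqrt 3), blue (Real.sqrt 5) (Real.sqrt 3),
    by unfold red; exact Set.toFinite _, by unfold blue; exact Set.toFinite _,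
    Set.disjoint_left.mpr fun p hr hb => red_blue hs ht hr hb,
    fun h => red_not_collinear' hs ht (h.subset Set.subset_union_left), ?_, ?_, ?_,
    red_not_onCircle hs ht, blue_not_onCircle hs ht, red_not_collinear' hs ht,
    blue_not_collinear' hs ht, ?_⟩
  · rintro ⟨C, hC, h⟩
    exact red_not_onCircle hs ht ⟨C, hC, Set.subset_union_left.trans h⟩
  · rintro _ ⟨c, r, hr, rfl⟩ ⟨h3, hT | hT⟩
    · exact red_not_mono hs ht hr h3 hT
    · exact blue_not_mono hs ht hr h3 hT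
  · rintro T (hT | hT) h3
    · exact red_not_collinear hs ht hT h3
    · exact blue_not_collinear hs ht hT h3
  · rintro Γ hΓ h
    refine not_cyc hs ht (h.cyc ?_)
    rcases hΓ with h | h | h | h
    · exact h.cyc
    · exact h.cyc
    · exact h.cyc
    · exact h.cyc

end Pool.Agent.P.MP_048963_co
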